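import Pool.Agent.FTU.Stmts

/-!
# FTU, row DRX: the Dirac energy at one point
-/

set_option autoImplicit false

open MeasureTheory Complex ProbabilityTheory MvPolynomial

noncomputable section

namespace Pool.Agent.FTU.H98

open Pool.Agent.Helper49_Pauli
open Pool.Agent.MBX
open Pool.Agent.Loc (γn PB)
open Pool.Agent.FTU

theorem ja_nonneg (J : Fin 3 → ℕ → ℕ → ℕ → ℝ) (v : Var) : 0 ≤ ja J v := by
  cases v with
  | eta => exact le_rfl
  | z => exact le_rfl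
  | zb => exact le_rfl
  | jet c p q r => exact abs_nonneg _

/-- POB with more room -/
theorem pobT (hPOB : PobStmt) (P : RR) : ∃ (C : ℝ) (m : ℕ), 0 ≤ C ∧ ∀ (C0 : ℝ) (m0 : ℕ)
    (T : Finset Var), C ≤ C0 → m ≤ m0 → P.vars ⊆ T → ∀ (et : ℝ) (J : Fin 3 → ℕ → ℕ → ℕ → ℝ) (ze : ℂ)
    (A : ℝ), 0 ≤ et → et ≤ 1 → 1 + ∑ v ∈ T, ja J v ≤ A →
      ‖ev et J ze P‖ ^ 2 ≤ C0 ^ 2 * (1 + ‖ze‖) ^ (2 * m0) * A ^ (2 * m0) := by
  obtain ⟨C, m, hC, h⟩ := hPOB P
  refine ⟨C, m, hC, ?_⟩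
  intro C0 m0 T hC0 hm hT et J ze A he0 he1 hA
  have h1 := h et J ze he0 he1
  have hz : (1 : ℝ) ≤ 1 + ‖ze‖ := by
    have := norm_nonneg ze
    linarith
  have h2 : 1 + ∑ v ∈ P.vars, ja J v ≤ A :=
    (add_le_add le_rfl (Finset.sum_le_sum_of_subset_of_nonneg hT
      (fun v _ _ => ja_nonneg J v))).trans hA
  have h3 : (0 : ℝ) ≤ ∑ v ∈ P.vars, ja J v := Finset.sum_nonneg fun v _ => ja_nonneg J v
  have hA1 : 1 ≤ A := by linarith
  have h4 : (1 + ‖ze‖) ^ m ≤ (1 + ‖ze‖) ^ m0 := pow_le_pow_right₀ hz hm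
  have h5 : (1 + ∑ v ∈ P.vars, ja J v) ^ m ≤ A ^ m0 :=
    (pow_le_pow_left₀ (by linarith) h2 m).trans (pow_le_pow_right₀ hA1 hm)
  have h6 : ‖ev et J ze P‖ ≤ C0 * (1 + ‖ze‖) ^ m0 * A ^ m0 := by
    refine h1.trans ?_
    exact mul_le_mul (mul_le_mul hC0 h4 (by positivity) (hC.trans hC0)) h5 (by positivity)
      (mul_nonneg (hC.trans hC0) (by positivity))
  calc ‖ev et J ze P‖ ^ 2 ≤ (C0 * (1 + ‖ze‖) ^ m0 * A ^ m0) ^ 2 :=
        pow_le_pow_left₀ (norm_nonneg _) h6 2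
    _ = C0 ^ 2 * (1 + ‖ze‖) ^ (2 * m0) * A ^ (2 * m0) := by
        rw [mul_pow, mul_pow, ← pow_mul, ← pow_mul, Nat.mul_comm m0 2]

theorem good_mono {ι : Type} [Fintype ι] {S : Sys ι} {K K' ell : ℝ} (h : S.Good K ell)
    (hK : K ≤ K') : S.Good K' ell where
  k1 := h.k1
  e1 := h.e1
  w0 := h.w0
  w1 := h.w1
  cw := h.cw.trans hK
  bes := by
    intro g a b hg hab hl
    refine (h.bes g a b hg hab hl).trans (mul_le_mul_of_nonneg_right hK ?_)
    exact intervalIntegral.integral_nonneg hab fun s _ => sq_nonneg _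

theorem bg_mono {ι : Type} [Fintype ι] {S : Sys ι} {et l K K' cost : ℝ} {n : ℕ} {e : ι → ℝ}
    (h : S.Bg et l K cost n e) (hK : K ≤ K') : S.Bg et l K' cost n e :=
  ⟨h.1, fun c p q r hn z hz => (h.2 c p q r hn z hz).trans hK⟩

theorem c2_le {ι : Type} [Fintype ι] {S : Sys ι} {K ell : ℝ} (h : S.Good K ell) :
    ∑ i, S.c i ^ 2 ≤ K := by
  refine le_trans (Finset.sum_le_sum fun i _ => ?_) h.cw
  rw [le_div_iff₀ (h.w0 i)]
  have h1 := h.w1 i
  have h2 := h.w0 i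
  nlinarith [sq_nonneg (S.c i)]

/-- the mean of the remainder -/
theorem mean_le {ι : Type} [Fintype ι] {S : Sys ι} {K ell cost : ℝ} (h : S.Good K ell)
    {e : ι → ℝ} (he : ∑ i, S.w i * e i ^ 2 ≤ cost) :
    ∑ i, |e i| * |S.c i| ≤ √cost * √K := by
  have h1 : (∑ i, (√(S.w i) * |e i|) * (|S.c i| / √(S.w i))) ^ 2 ≤
      (∑ i, (√(S.w i) * |e i|) ^ 2) * ∑ i, (|S.c i| / √(S.w i)) ^ 2 :=
    Finset.sum_mul_sq_le_sq_mul_sq _ _ _
  have h2 : ∀ i, (√(S.w i) * |e i|) * (|S.c i| / √(S.w i)) = |e i| * |S.c i| := by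
    intro i
    have h3 : √(S.w i) ≠ 0 := (Real.sqrt_pos.2 (h.w0 i)).ne'
    field_simp
  have h3 : ∀ i, (√(S.w i) * |e i|) ^ 2 = S.w i * e i ^ 2 := by
    intro i
    rw [mul_pow, Real.sq_sqrt (h.w0 i).le, sq_abs]
  have h4 : ∀ i, (|S.c i| / √(S.w i)) ^ 2 = S.c i ^ 2 / S.w i := by
    intro i
    rw [div_pow, Real.sq_sqrt (h.w0 i).le, sq_abs]
  simp only [h2, h3, h4] at h1
  have h5 : (0 : ℝ) ≤ ∑ i, S.w i * e i ^ 2 :=
    Finset.sum_nonneg fun i _ => mul_nonneg (h.w0 i).le (sq_nonneg _)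
  have h6 : (0 : ℝ) ≤ ∑ i, S.c i ^ 2 / S.w i :=
    Finset.sum_nonneg fun i _ => div_nonneg (sq_nonneg _) (h.w0 i).le
  have h7 : (∑ i, |e i| * |S.c i|) ^ 2 ≤ cost * K :=
    h1.trans (mul_le_mul he h.cw h6 (h5.trans he))
  rw [← Real.sqrt_mul (h5.trans he)]
  exact Real.le_sqrt_of_sq_le h7

theorem norm_zt (et : ℝ) (he : 0 < et) (x : X3) : |x 0| + |x 1| ≤ 2 * et ^ 2 * ‖zt et x‖ := by
  have h1 : ‖zt et x‖ * et ^ 2 = ‖(x 0 : ℂ) + I * (x 1 : ℂ)‖ := by
    unfold zt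
    rw [norm_div, norm_pow, Complex.norm_real, Real.norm_eq_abs, abs_of_pos he]
    field_simp
  have h2 : |x 0| ≤ ‖(x 0 : ℂ) + I * (x 1 : ℂ)‖ := by
    have h3 := Complex.abs_re_le_norm ((x 0 : ℂ) + I * (x 1 : ℂ))
    simpa using h3
  have h3 : |x 1| ≤ ‖(x 0 : ℂ) + I * (x 1 : ℂ)‖ := by
    have h3 := Complex.abs_im_le_norm ((x 0 : ℂ) + I * (x 1 : ℂ))
    simpa using h3
  have h4 : 2 * et ^ 2 * ‖zt et x‖ = 2 * (‖zt et x‖ * et ^ 2) := by ring
  rw [h4, h1]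
  linarith

theorem nsq_nonneg' (v : S2) : 0 ≤ nsq v := Finset.sum_nonneg fun _ _ => sq_nonneg _

/-- the final inequality of real numbers -/
theorem final_alg {g P A Z E s CB L cc et1 R a1 a2 a3 a4 : ℝ} {M : ℕ} (hg : 0 ≤ g) (hA : 1 ≤ A)
    (hZ : 1 ≤ Z) (hE : 0 ≤ E) (h1 : a1 ≤ P) (h2 : a2 ≤ P) (h3 : a3 ≤ P) (h4 : a4 ≤ P)
    (h3' : 0 ≤ a3) (h4' : 0 ≤ a4) (hR : R ≤ 3 * (s ^ 2 * A ^ 2)) (hP : 0 ≤ P)
    (hs : s ^ 2 ≤ 2 ^ (2 * M + 1) * (cc * et1) * Z ^ (2 * M)) (hce : 0 ≤ cc * et1) :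
    3 * (1 * g) * (E * (a1 + a2) + (R + 3 * CB ^ 2 * L ^ 2) * (a3 + a4)) ≤
      6 * (1 + 3 * 2 ^ (2 * M + 1) + 3 * CB ^ 2) * (L ^ 2 + E + cc * et1) *
        (Z ^ (2 * M) * g) * (P * A ^ 2) := by
  have hA2 : 1 ≤ A ^ 2 := one_le_pow₀ hA
  have hZM : 1 ≤ Z ^ (2 * M) := one_le_pow₀ hZ
  have e1 : E * (a1 + a2) ≤ E * (2 * P) := mul_le_mul_of_nonneg_left (by linarith) hE
  have e2 : (R + 3 * CB ^ 2 * L ^ 2) * (a3 + a4) ≤
      (3 * (s ^ 2 * A ^ 2) + 3 * CB ^ 2 * L ^ 2) * (2 * P) := by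
    have e3 : (R + 3 * CB ^ 2 * L ^ 2) * (a3 + a4) ≤
        (3 * (s ^ 2 * A ^ 2) + 3 * CB ^ 2 * L ^ 2) * (a3 + a4) :=
      mul_le_mul_of_nonneg_right (by linarith) (by linarith)
    exact e3.trans (mul_le_mul_of_nonneg_left (by linarith) (by positivity))
  have e4 : E * (2 * P) + (3 * (s ^ 2 * A ^ 2) + 3 * CB ^ 2 * L ^ 2) * (2 * P) ≤
      2 * (P * A ^ 2) * (E + 3 * s ^ 2 + 3 * CB ^ 2 * L ^ 2) := by
    have e5 : E * P ≤ E * P * A ^ 2 := le_mul_of_one_le_right (mul_nonneg hE hP) hA2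
    have e6 : CB ^ 2 * L ^ 2 * P ≤ CB ^ 2 * L ^ 2 * P * A ^ 2 :=
      le_mul_of_one_le_right (by positivity) hA2
    nlinarith [e5, e6]
  have e7 : E + 3 * s ^ 2 + 3 * CB ^ 2 * L ^ 2 ≤
      Z ^ (2 * M) * ((1 + 3 * 2 ^ (2 * M + 1) + 3 * CB ^ 2) * (L ^ 2 + E + cc * et1)) := by
    have e8 : E ≤ Z ^ (2 * M) * E := le_mul_of_one_le_left hE hZM
    have e9 : CB ^ 2 * L ^ 2 ≤ Z ^ (2 * M) * (CB ^ 2 * L ^ 2) :=
      le_mul_of_one_le_left (by positivity) hZM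
    have f1 : 0 ≤ Z ^ (2 * M) := by linarith
    have f2 : (0 : ℝ) < 2 ^ (2 * M + 1) := by positivity
    have f3 : E + 3 * s ^ 2 + 3 * CB ^ 2 * L ^ 2 ≤
        Z ^ (2 * M) * (E + 3 * (2 ^ (2 * M + 1) * (cc * et1)) + 3 * (CB ^ 2 * L ^ 2)) := by
      nlinarith [e8, e9, hs]
    refine f3.trans (mul_le_mul_of_nonneg_left ?_ f1)
    have f4 : 0 ≤ (2 : ℝ) ^ (2 * M + 1) * L ^ 2 := by positivity
    have f5 : 0 ≤ (2 : ℝ) ^ (2 * M + 1) * E := by positivity
    have f6 : 0 ≤ CB ^ 2 * E := by positivity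
    have f7 : 0 ≤ CB ^ 2 * (cc * et1) := by positivity
    nlinarith [f4, f5, f6, f7, sq_nonneg L]
  have e10 : 0 ≤ 2 * (P * A ^ 2) := by positivity
  have e11 := mul_le_mul_of_nonneg_left e7 e10
  have e12 : E * (a1 + a2) + (R + 3 * CB ^ 2 * L ^ 2) * (a3 + a4) ≤ 2 * (P * A ^ 2) *
      (Z ^ (2 * M) * ((1 + 3 * 2 ^ (2 * M + 1) + 3 * CB ^ 2) * (L ^ 2 + E + cc * et1))) := by
    linarith
  have e13 := mul_le_mul_of_nonneg_left e12 (by positivity : 0 ≤ 3 * (1 * g))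
  refine e13.trans (le_of_eq ?_)
  ring

/-- **DRX** -/
theorem drx (hRMB : RmbStmt) (hPOB : PobStmt) (hJMM : JmmStmt) (hDRP : DrpStmt) : DrxStmt := by
  intro bp CB hB M eps u f r1 r2 hM hJt hcj hD1 hD2
  obtain ⟨C1, m1, hC1, hP1⟩ := pobT hPOB r1
  obtain ⟨C2, m2, hC2, hP2⟩ := pobT hPOB r2
  obtain ⟨C3, m3, hC3, hP3⟩ := pobT hPOB u
  obtain ⟨C4, m4, hC4, hP4⟩ := pobT hPOB f
  obtain ⟨C0, hC0⟩ : ∃ C0, C0 = C1 + C2 + C3 + C4 := ⟨_, rfl⟩
  obtain ⟨m0, hm0⟩ : ∃ m0, m0 = m1 + m2 + m3 + m4 := ⟨_, rfl⟩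
  obtain ⟨T, hT⟩ : ∃ T : Finset Var, T = (r1.vars ∪ r2.vars) ∪ (u.vars ∪ f.vars) := ⟨_, rfl⟩
  obtain ⟨n, hn⟩ := hJMM (2 * m0 + 2) T
  refine ⟨2 * m0 + 2 * M, n, ?_⟩
  intro K
  obtain ⟨CJ, hCJ, hJ⟩ := hn (1 + |K|)
  refine ⟨6 * (1 + 3 * 2 ^ (2 * M + 1) + 3 * CB ^ 2) * C0 ^ 2 * CJ, by positivity, ?_⟩
  intro ι _ _ S ell et l cost e hG he0 he1 hl hcost hBg x
  have hKK : K ≤ 1 + |K| := by
    have := le_abs_self K
    linarith
  have hK0 : 0 ≤ K := le_trans (Finset.sum_nonneg fun i _ => sq_nonneg _) (c2_le hG)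
  by_cases hx : ∀ j, |x j| ≤ l
  swap
  · -- outside of the cube
    have hc : cube l x = 0 := if_neg hx
    have h1 : ∀ y : ι → ℝ, nsq (dop (S.fld fun i => y i + e i)
        (S.tri et eps u f (sc bp l) fun i => y i + e i) x) ≤ 0 := by
      intro y
      have h2 := hDRP bp CB hB M eps u f r1 r2 hM hJt hcj hD1 hD2 ι S et l
        (fun i => y i + e i) x he0 hl
      rw [hc] at h2
      simpa using h2
    rw [hc]
    simp only [zero_mul, mul_zero]
    exact integral_nonpos h1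
  · have hc : cube l x = 1 := if_pos hx
    -- the scale of the remainder
    obtain ⟨ρ, hρ⟩ : ∃ ρ : ℝ, ρ = (|x 0| + |x 1|) ^ M := ⟨_, rfl⟩
    have hρ0 : 0 ≤ ρ := by
      rw [hρ]
      positivity
    obtain ⟨s, hs⟩ : ∃ s : ℝ, s = ρ * (1 + √cost) := ⟨_, rfl⟩
    have hsc : 1 ≤ 1 + √cost := by
      have := Real.sqrt_nonneg cost
      linarith
    have hs0 : 0 ≤ s := by
      rw [hs]
      positivity
    have hrm : ∀ i c, |S.rm M i x c| ≤ |S.c i| * ρ := by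
      intro i c
      rw [hρ]
      exact hRMB ι S i (hG.k1 i) (hG.e1 i) M x c
    obtain ⟨a', ha'⟩ : ∃ a' : Fin 3 → ι → ℝ, a' = fun c i => S.rm M i x c / s := ⟨_, rfl⟩
    obtain ⟨b', hb'⟩ : ∃ b' : Fin 3 → ℝ, b' = fun c => (∑ i, e i * S.rm M i x c) / s := ⟨_, rfl⟩
    have haff : ∀ (y : ι → ℝ) (c : Fin 3), ∑ i, (y i + e i) * S.rm M i x c =
        s * (b' c + ∑ i, y i * a' c i) := by
      intro y c
      rw [ha', hb']
      by_cases h0 : s = 0
      · have h1 : ρ = 0 := by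
          rw [hs] at h0
          rcases mul_eq_zero.1 h0 with h | h
          · exact h
          · linarith
        have h2 : ∀ i, S.rm M i x c = 0 := by
          intro i
          have h3 := hrm i c
          rw [h1, mul_zero] at h3
          exact abs_eq_zero.1 (le_antisymm h3 (abs_nonneg _))
        simp only [h2, h0, mul_zero, Finset.sum_const_zero, zero_mul]
      · show _ = s * ((∑ i, e i * S.rm M i x c) / s + ∑ i, y i * (S.rm M i x c / s))
        have h1 : ∑ i, y i * (S.rm M i x c / s) = (∑ i, y i * S.rm M i x c) / s := by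
          rw [Finset.sum_div]
          exact Finset.sum_congr rfl fun i _ => by ring
        rw [h1, ← add_div, mul_div_cancel₀ _ h0, ← Finset.sum_add_distrib]
        exact Finset.sum_congr rfl fun i _ => by ring
    have hb1 : ∀ c, |b' c| ≤ 1 + |K| := by
      intro c
      rw [hb']
      show |(∑ i, e i * S.rm M i x c) / s| ≤ 1 + |K|
      by_cases h0 : s = 0
      · rw [h0, div_zero, abs_zero]
        positivity
      · have hsp : 0 < s := lt_of_le_of_ne hs0 (Ne.symm h0)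
        rw [abs_div, abs_of_pos hsp, div_le_iff₀ hsp]
        have h1 : |∑ i, e i * S.rm M i x c| ≤ (∑ i, |e i| * |S.c i|) * ρ := by
          rw [Finset.sum_mul]
          refine (Finset.abs_sum_le_sum_abs _ _).trans (Finset.sum_le_sum fun i _ => ?_)
          rw [abs_mul, mul_assoc]
          exact mul_le_mul_of_nonneg_left (hrm i c) (abs_nonneg _)
        have h2 := mean_le hG hBg.1
        have h3 : √K ≤ 1 + |K| := by
          rw [abs_of_nonneg hK0]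
          have h4 := Real.sq_sqrt hK0
          nlinarith [Real.sqrt_nonneg K, sq_nonneg (√K - 1)]
        have h5 : √cost * √K ≤ (1 + |K|) * (1 + √cost) := by
          have h6 := Real.sqrt_nonneg cost
          have h7 : √cost * √K ≤ √cost * (1 + |K|) := mul_le_mul_of_nonneg_left h3 h6
          have h8 : 0 ≤ 1 + |K| := by positivity
          nlinarith
        calc |∑ i, e i * S.rm M i x c| ≤ (∑ i, |e i| * |S.c i|) * ρ := h1
          _ ≤ ((1 + |K|) * (1 + √cost)) * ρ := mul_le_mul_of_nonneg_right (h2.trans h5) hρ0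
          _ = (1 + |K|) * s := by
              rw [hs]
              ring
    have ha1 : ∀ c, ∑ i, a' c i ^ 2 ≤ 1 + |K| := by
      intro c
      rw [ha']
      show ∑ i, (S.rm M i x c / s) ^ 2 ≤ 1 + |K|
      refine le_trans (Finset.sum_le_sum fun i _ => ?_) ((c2_le hG).trans hKK)
      by_cases h0 : s = 0
      · rw [h0, div_zero]
        have := sq_nonneg (S.c i)
        simpa using this
      · have hsp : 0 < s := lt_of_le_of_ne hs0 (Ne.symm h0)
        rw [div_pow, div_le_iff₀ (by positivity)]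
        have h1 : S.rm M i x c ^ 2 ≤ (|S.c i| * ρ) ^ 2 := by
          rw [← sq_abs (S.rm M i x c)]
          exact pow_le_pow_left₀ (abs_nonneg _) (hrm i c) 2
        have h2 : ρ ^ 2 ≤ s ^ 2 := by
          refine pow_le_pow_left₀ hρ0 ?_ 2
          rw [hs]
          exact le_mul_of_one_le_right hρ0 hsc
        rw [mul_pow, sq_abs] at h1
        exact h1.trans (mul_le_mul_of_nonneg_left h2 (sq_nonneg _))
    obtain ⟨A, hA⟩ : ∃ A : (ι → ℝ) → ℝ, A = fun y =>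
      1 + (∑ v ∈ T, ja (S.jt et (fun i => y i + e i) (x 2)) v) +
        ∑ c, |b' c + ∑ i, y i * a' c i| := ⟨_, rfl⟩
    have hAy : ∀ y, A y = 1 + (∑ v ∈ T, ja (S.jt et (fun i => y i + e i) (x 2)) v) +
        ∑ c, |b' c + ∑ i, y i * a' c i| := fun y => by rw [hA]
    have hJ1 := hJ ι S ell et l cost e (good_mono hG hKK) (bg_mono hBg hKK) (x 2) (hx 2) a' b'
      hb1 ha1
    have hint : Integrable (fun y => A y ^ (2 * m0 + 2)) (γn ι) := by
      rw [hA]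
      exact hJ1.1
    have hval : ∫ y, A y ^ (2 * m0 + 2) ∂(γn ι) ≤ CJ := by
      rw [hA]
      exact hJ1.2
    obtain ⟨Z, hZ⟩ : ∃ Z : ℝ, Z = 1 + ‖zt et x‖ := ⟨_, rfl⟩
    have hZ1 : 1 ≤ Z := by
      rw [hZ]
      have := norm_nonneg (zt et x)
      linarith
    -- the size of the scale
    have hs2 : s ^ 2 ≤ 2 ^ (2 * M + 1) * ((1 + cost) * et ^ (4 * M)) * Z ^ (2 * M) := by
      have h1 : |x 0| + |x 1| ≤ 2 * et ^ 2 * Z := by
        refine (norm_zt et he0 x).trans (mul_le_mul_of_nonneg_left ?_ (by positivity))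
        rw [hZ]
        linarith
      have h2 : ρ ≤ (2 * et ^ 2 * Z) ^ M := by
        rw [hρ]
        exact pow_le_pow_left₀ (by positivity) h1 M
      have h3 : ρ ^ 2 ≤ ((2 * et ^ 2 * Z) ^ M) ^ 2 := pow_le_pow_left₀ hρ0 h2 2
      have h4 : ((2 * et ^ 2 * Z) ^ M) ^ 2 = 2 ^ (2 * M) * et ^ (4 * M) * Z ^ (2 * M) := by
        rw [← pow_mul, mul_pow, mul_pow, ← pow_mul, Nat.mul_comm M 2,
          show 2 * (2 * M) = 4 * M by ring]
      have h5 : (1 + √cost) ^ 2 ≤ 2 * (1 + cost) := by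
        have h6 := Real.sq_sqrt hcost
        nlinarith [sq_nonneg (√cost - 1)]
      rw [hs, mul_pow]
      calc ρ ^ 2 * (1 + √cost) ^ 2 ≤
          (2 ^ (2 * M) * et ^ (4 * M) * Z ^ (2 * M)) * (2 * (1 + cost)) := by
            rw [h4] at h3
            exact mul_le_mul h3 h5 (by positivity) (by positivity)
        _ = 2 ^ (2 * M + 1) * ((1 + cost) * et ^ (4 * M)) * Z ^ (2 * M) := by
            rw [pow_succ]
            ring
    obtain ⟨W, hW⟩ : ∃ W : ℝ, W = 6 * (1 + 3 * 2 ^ (2 * M + 1) + 3 * CB ^ 2) *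
        ((l⁻¹) ^ 2 + et ^ (2 * M - 4) + (1 + cost) * et ^ (4 * M)) *
          (Z ^ (2 * M) * gs et x ^ 2) * (C0 ^ 2 * Z ^ (2 * m0)) := ⟨_, rfl⟩
    have hW0 : 0 ≤ W := by
      rw [hW]
      have : 0 ≤ Z := by linarith
      positivity
    have hpt : ∀ y : ι → ℝ, nsq (dop (S.fld fun i => y i + e i)
        (S.tri et eps u f (sc bp l) fun i => y i + e i) x) ≤ W * A y ^ (2 * m0 + 2) := by
      intro y
      have h1 := hDRP bp CB hB M eps u f r1 r2 hM hJt hcj hD1 hD2 ι S et l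
        (fun i => y i + e i) x he0 hl
      rw [hc] at h1
      have hJnn : (0 : ℝ) ≤ ∑ v ∈ T, ja (S.jt et (fun i => y i + e i) (x 2)) v :=
        Finset.sum_nonneg fun v _ => ja_nonneg _ v
      have hcnn : ∀ c : Fin 3, |b' c + ∑ i, y i * a' c i| ≤ ∑ c, |b' c + ∑ i, y i * a' c i| :=
        fun c => Finset.single_le_sum (f := fun c => |b' c + ∑ i, y i * a' c i|)
          (fun _ _ => abs_nonneg _) (Finset.mem_univ c)
      have hcnn0 : (0 : ℝ) ≤ ∑ c, |b' c + ∑ i, y i * a' c i| :=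
        Finset.sum_nonneg fun _ _ => abs_nonneg _
      have hA1 : 1 ≤ A y := by
        rw [hAy]
        linarith
      have hA2 : 1 + ∑ v ∈ T, ja (S.jt et (fun i => y i + e i) (x 2)) v ≤ A y := by
        rw [hAy]
        linarith
      have hA3 : ∀ c : Fin 3, |b' c + ∑ i, y i * a' c i| ≤ A y := by
        intro c
        rw [hAy]
        have := hcnn c
        linarith
      have hR : ∑ c, (∑ i, (y i + e i) * S.rm M i x c) ^ 2 ≤ 3 * (s ^ 2 * A y ^ 2) := by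
        have h2 : ∀ c : Fin 3, (∑ i, (y i + e i) * S.rm M i x c) ^ 2 ≤ s ^ 2 * A y ^ 2 := by
          intro c
          rw [haff, mul_pow]
          refine mul_le_mul_of_nonneg_left ?_ (sq_nonneg _)
          rw [← sq_abs]
          exact pow_le_pow_left₀ (abs_nonneg _) (hA3 c) 2
        refine (Finset.sum_le_sum fun c _ => h2 c).trans (le_of_eq ?_)
        simp
      have hsub : r1.vars ⊆ T ∧ r2.vars ⊆ T ∧ u.vars ⊆ T ∧ f.vars ⊆ T := by
        rw [hT]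
        refine ⟨?_, ?_, ?_, ?_⟩
        · exact Finset.subset_union_left.trans Finset.subset_union_left
        · exact Finset.subset_union_right.trans Finset.subset_union_left
        · exact Finset.subset_union_left.trans Finset.subset_union_right
        · exact Finset.subset_union_right.trans Finset.subset_union_right
      have q1 := hP1 C0 m0 T (by rw [hC0]; linarith) (by omega) hsub.1 et
        (S.jt et (fun i => y i + e i) (x 2)) (zt et x) (A y) he0.le he1 hA2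
      have q2 := hP2 C0 m0 T (by rw [hC0]; linarith) (by omega) hsub.2.1 et
        (S.jt et (fun i => y i + e i) (x 2)) (zt et x) (A y) he0.le he1 hA2
      have q3 := hP3 C0 m0 T (by rw [hC0]; linarith) (by omega) hsub.2.2.1 et
        (S.jt et (fun i => y i + e i) (x 2)) (zt et x) (A y) he0.le he1 hA2
      have q4 := hP4 C0 m0 T (by rw [hC0]; linarith) (by omega) hsub.2.2.2 et
        (S.jt et (fun i => y i + e i) (x 2)) (zt et x) (A y) he0.le he1 hA2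
      rw [← hZ] at q1 q2 q3 q4
      have hA0 : 0 ≤ A y := by linarith
      have hZ0 : 0 ≤ Z := by linarith
      have h5 := final_alg (g := gs et x ^ 2) (CB := CB) (L := l⁻¹) (cc := 1 + cost)
        (et1 := et ^ (4 * M)) (E := et ^ (2 * M - 4)) (M := M) (sq_nonneg _) hA1 hZ1
        (by positivity) q1 q2 q3 q4 (sq_nonneg _) (sq_nonneg _) hR (by positivity) hs2
        (by positivity)
      refine h1.trans (h5.trans (le_of_eq ?_))
      rw [hW, pow_add]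
      ring
    calc ∫ y, nsq (dop (S.fld fun i => y i + e i)
          (S.tri et eps u f (sc bp l) fun i => y i + e i) x) ∂(γn ι) ≤
        ∫ y, W * A y ^ (2 * m0 + 2) ∂(γn ι) :=
          integral_mono_of_nonneg (Filter.Eventually.of_forall fun y => nsq_nonneg' _)
            (hint.const_mul W) (Filter.Eventually.of_forall hpt)
      _ = W * ∫ y, A y ^ (2 * m0 + 2) ∂(γn ι) := integral_const_mul _ _
      _ ≤ W * CJ := mul_le_mul_of_nonneg_left hval hW0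
      _ = _ := by
          rw [hW, hc, ← hZ, pow_add]
          ring

end Pool.Agent.FTU.H98
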